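import Pool.Agent.W221.NS.Stm

/-! # MD-HARM: interior estimates, all scales -/

open MeasureTheory Set Metric
open scoped ContDiff

namespace Pool.Agent.W346.MD

open H459R3.NS W221.NS

theorem smooth_pd {g : V → ℝ} (hg : ContDiff ℝ ∞ g) (j : Fin 3) : ContDiff ℝ ∞ (pd j g) := by
  have h1 : ContDiff ℝ ∞ (fderiv ℝ g) := hg.fderiv_right (by norm_cast)
  exact h1.clm_apply contDiff_const

theorem pd_comp {g : V → ℝ} (hg : Differentiable ℝ g) (z : V) (r : ℝ) (i : Fin 3) (y : V) :
    pd i (fun y => g (z + r • y)) y = r * pd i g (z + r • y) := by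
  have h1 : HasFDerivAt (fun y : V => z + r • y) (r • ContinuousLinearMap.id ℝ V) y :=
    ((hasFDerivAt_id y).const_smul r).const_add z
  have h2 := ((hg (z + r • y)).hasFDerivAt.comp y h1)
  have h3 : fderiv ℝ (fun y => g (z + r • y)) y =
      (fderiv ℝ g (z + r • y)).comp (r • ContinuousLinearMap.id ℝ V) := h2.fderiv
  show fderiv ℝ (fun y => g (z + r • y)) y (Pi.single i 1) = r * fderiv ℝ g (z + r • y) _
  rw [h3, ContinuousLinearMap.comp_apply, ContinuousLinearMap.smul_apply, map_smul,
    ContinuousLinearMap.id_apply, smul_eq_mul]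

theorem pd2_comp {g : V → ℝ} (hg : ContDiff ℝ ∞ g) (z : V) (r : ℝ) (i j : Fin 3) (y : V) :
    pd i (pd j (fun y => g (z + r • y))) y = r ^ 2 * pd i (pd j g) (z + r • y) := by
  have h1 : pd j (fun y => g (z + r • y)) = fun y => r * pd j g (z + r • y) := by
    funext y
    exact pd_comp (hg.differentiable (by simp)) z r j y
  rw [h1]
  have h2 : Differentiable ℝ (fun y => pd j g (z + r • y)) := by
    have := (smooth_pd hg j).differentiable (by simp)
    exact this.comp (by fun_prop)
  have h3 : pd i (fun y => r * pd j g (z + r • y)) y =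
      r * pd i (fun y => pd j g (z + r • y)) y := by
    show fderiv ℝ (fun y => r * pd j g (z + r • y)) y _ = r * fderiv ℝ _ y _
    rw [fderiv_const_mul (h2 y)]
    rfl
  rw [h3, pd_comp ((smooth_pd hg j).differentiable (by simp))]
  ring

theorem setint_scale (F : V → ℝ) (z : V) (r : ℝ) (hr : 0 < r) :
    ∫ y in ball (0 : V) 1, F (z + r • y) = (r ^ 3)⁻¹ * ∫ x in ball z r, F x := by
  rw [← integral_indicator measurableSet_ball, ← integral_indicator measurableSet_ball]
  have h1 : (ball (0 : V) 1).indicator (fun y => F (z + r • y)) =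
      fun y => (ball z r).indicator F (z + r • y) := by
    funext y
    have hiff : y ∈ ball (0 : V) 1 ↔ z + r • y ∈ ball z r := by
      rw [mem_ball_zero_iff, mem_ball, dist_eq_norm, add_sub_cancel_left, norm_smul,
        Real.norm_of_nonneg hr.le]
      constructor
      · intro h; nlinarith
      · intro h; nlinarith
    by_cases hy : y ∈ ball (0 : V) 1
    · rw [indicator_of_mem hy, indicator_of_mem (hiff.1 hy)]
    · rw [indicator_of_notMem hy, indicator_of_notMem (fun h => hy (hiff.2 h))]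
  rw [h1]
  have h2 := Measure.integral_comp_smul (volume : Measure V)
    (fun x => (ball z r).indicator F (z + x)) r
  rw [h2, integral_add_left_eq_self (fun x => (ball z r).indicator F x) z]
  have h3 : Module.finrank ℝ V = 3 := by simp
  rw [h3, smul_eq_mul, abs_of_pos (by positivity)]

theorem t_HARM (h : S_HARM0) : S_HARM := by
  obtain ⟨C, hC, hh⟩ := h
  refine ⟨128 * C, by positivity, ?_⟩
  intro g hg a ρ hρ hlap z hz i
  set r := ρ / 2 with hr
  have hr0 : 0 < r := by positivity
  have hsub : ball z r ⊆ ball a ρ := by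
    intro x hx
    rw [mem_ball] at *
    calc dist x a ≤ dist x z + dist z a := dist_triangle _ _ _
      _ < r + r := add_lt_add hx hz
      _ = ρ := by rw [hr]; ring
  have hmem : ∀ y ∈ ball (0 : V) 1, z + r • y ∈ ball z r := by
    intro y hy
    rw [mem_ball_zero_iff] at hy
    rw [mem_ball, dist_eq_norm, add_sub_cancel_left, norm_smul, Real.norm_of_nonneg hr0.le]
    nlinarith
  have hg' : ContDiff ℝ ∞ (fun y => g (z + r • y)) := hg.comp (by fun_prop)
  have hlap' : ∀ y ∈ ball (0 : V) 1, lap (fun y => g (z + r • y)) y = 0 := by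
    intro y hy
    have e : lap (fun y => g (z + r • y)) y = r ^ 2 * lap g (z + r • y) := by
      unfold lap
      rw [Finset.mul_sum]
      exact Finset.sum_congr rfl fun j _ => pd2_comp hg z r j j y
    rw [e, hlap _ (hsub (hmem y hy)), mul_zero]
  obtain ⟨k1, k2⟩ := hh _ hg' hlap' i
  have hint : ∫ y in ball (0 : V) 1, g (z + r • y) ^ 2 ≤ (r ^ 3)⁻¹ * ∫ x in ball a ρ, g x ^ 2 := by
    rw [setint_scale (fun x => g x ^ 2) z r hr0]
    refine mul_le_mul_of_nonneg_left ?_ (by positivity)
    refine setIntegral_mono_set ?_ (ae_of_all _ fun x => sq_nonneg _)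
      (HasSubset.Subset.eventuallyLE hsub)
    have hc : Continuous fun x => g x ^ 2 := hg.continuous.pow 2
    exact (hc.continuousOn.integrableOn_compact (isCompact_closedBall a ρ)).mono_set
      ball_subset_closedBall
  set N := ∫ x in ball a ρ, g x ^ 2 with hN
  have hN0 : 0 ≤ N := integral_nonneg fun x => sq_nonneg _
  have e0 : z + r • (0 : V) = z := by rw [smul_zero, add_zero]
  constructor
  · rw [pd_comp (hg.differentiable (by simp)), e0] at k1
    have k3 : (r * pd i g z) ^ 2 ≤ C * ((r ^ 3)⁻¹ * N) :=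
      k1.trans (mul_le_mul_of_nonneg_left hint hC.le)
    have k4 : pd i g z ^ 2 ≤ 32 * C * (ρ ^ 5)⁻¹ * N := by
      have e1 : pd i g z ^ 2 = (r * pd i g z) ^ 2 * (r ^ 2)⁻¹ := by
        field_simp
      have e2 : 32 * C * (ρ ^ 5)⁻¹ * N = C * ((r ^ 3)⁻¹ * N) * (r ^ 2)⁻¹ := by
        rw [hr]
        field_simp
        ring
      rw [e1, e2]
      exact mul_le_mul_of_nonneg_right k3 (by positivity)
    refine k4.trans ?_
    have : 0 ≤ C * (ρ ^ 5)⁻¹ * N := by positivity
    linarith
  · intro j
    have k1 := k2 j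
    rw [pd2_comp hg, e0] at k1
    have k3 : (r ^ 2 * pd i (pd j g) z) ^ 2 ≤ C * ((r ^ 3)⁻¹ * N) :=
      k1.trans (mul_le_mul_of_nonneg_left hint hC.le)
    have e1 : pd i (pd j g) z ^ 2 = (r ^ 2 * pd i (pd j g) z) ^ 2 * (r ^ 4)⁻¹ := by
      field_simp
    have e2 : 128 * C * (ρ ^ 7)⁻¹ * N = C * ((r ^ 3)⁻¹ * N) * (r ^ 4)⁻¹ := by
      rw [hr]
      field_simp
      ring
    rw [e1, e2]
    exact mul_le_mul_of_nonneg_right k3 (by positivity)

end Pool.Agent.W346.MD
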