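import Pool.Agent.W221.NS.Stm

/-! # MD-TSUM: the sum over all scales -/

open MeasureTheory Set Metric
open scoped ContDiff

namespace Pool.Agent.W346.MD

open H459R3.NS W221.NS

/-- the time interval of scale `k` -/
def II (s : ℝ) (k : ℕ) : Set ℝ := Ioc (s - rr k ^ 2) s

theorem rr_sq (k : ℕ) : rr k ^ 2 = (1 / 4) ^ k := by
  unfold rr
  rw [← pow_mul, mul_comm, pow_mul]
  norm_num

theorem rr_sq_anti {i k : ℕ} (h : i ≤ k) : rr k ^ 2 ≤ rr i ^ 2 := by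
  rw [rr_sq, rr_sq]
  exact pow_le_pow_of_le_one (by norm_num) (by norm_num) h

theorem II_sub (s : ℝ) {i k : ℕ} (h : i ≤ k) : II s k ⊆ II s i := by
  intro t ht
  have h1 : s - rr k ^ 2 < t ∧ t ≤ s := ht
  exact ⟨by have := rr_sq_anti h; linarith, h1.2⟩

theorem vol_II (s : ℝ) (k : ℕ) : volume.real (II s k) = (1 / 4) ^ k := by
  unfold II
  rw [Real.volume_real_Ioc_of_le (by have := sq_nonneg (rr k); linarith), rr_sq]
  ring

theorem piece {Λ s : ℝ} {b : ℝ → ℝ} {i k : ℕ} (hik : i ≤ k) (hb : ∀ t, 0 ≤ b t)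
    (hi : IntegrableOn b (II s i)) (hle : ∫ t in II s i, b t ≤ Λ / 8 ^ i) :
    IntegrableOn (fun t => 4 ^ k * (Λ / 8 ^ i) + b t) (II s k) ∧
      ∫ t in II s k, (4 ^ k * (Λ / 8 ^ i) + b t) ≤ 2 * (Λ / 8 ^ i) := by
  have hfin : volume (II s k) ≠ ⊤ := measure_Ioc_lt_top.ne
  have h1 : IntegrableOn (fun _ : ℝ => (4 : ℝ) ^ k * (Λ / 8 ^ i)) (II s k) :=
    integrableOn_const hfin
  have h2 : IntegrableOn b (II s k) := hi.mono_set (II_sub s hik)
  refine ⟨h1.add h2, ?_⟩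
  rw [integral_add h1 h2, setIntegral_const, vol_II, smul_eq_mul]
  have h3 : ∫ t in II s k, b t ≤ ∫ t in II s i, b t :=
    setIntegral_mono_set hi (ae_of_all _ hb) (II_sub s hik).eventuallyLE
  have h4 : (1 / 4 : ℝ) ^ k * (4 ^ k * (Λ / 8 ^ i)) = Λ / 8 ^ i := by
    rw [← mul_assoc, ← mul_pow]
    norm_num
  rw [h4]
  linarith

/-- the constant `1 / √2` -/
noncomputable def xx : ℝ := (√2)⁻¹

theorem yy_sq : √(2 : ℝ) ^ 2 = 2 := Real.sq_sqrt (by norm_num)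

theorem yy_pos : 0 < √(2 : ℝ) := Real.sqrt_pos.2 (by norm_num)

theorem xx_pos : 0 < xx := inv_pos.2 yy_pos

theorem xx_sq : xx ^ 2 = 1 / 2 := by
  unfold xx
  rw [inv_pow, yy_sq]
  norm_num

theorem xx_le : xx ≤ 3 / 4 := by
  have := xx_sq
  have := xx_pos
  nlinarith

theorem sq1 (k : ℕ) : √(1 / 8 ^ k) = xx ^ (3 * k) := by
  have h : (1 : ℝ) / 8 ^ k = (xx ^ (3 * k)) ^ 2 := by
    rw [← pow_mul, mul_comm (3 * k) 2, pow_mul, xx_sq, pow_mul, ← one_div_pow]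
    norm_num
  rw [h, Real.sqrt_sq (pow_nonneg xx_pos.le _)]

theorem sq2 (k : ℕ) : √(rr k) = xx ^ k := by
  have h : rr k = (xx ^ k) ^ 2 := by
    unfold rr
    rw [← pow_mul, mul_comm k 2, pow_mul, xx_sq]
  rw [h, Real.sqrt_sq (pow_nonneg xx_pos.le _)]

theorem sq3 (j : ℕ) : √(32 ^ j) = √2 ^ (5 * j) := by
  have h : (32 : ℝ) ^ j = (√2 ^ (5 * j)) ^ 2 := by
    rw [← pow_mul, mul_comm (5 * j) 2, pow_mul, yy_sq, pow_mul]
    norm_num
  rw [h, Real.sqrt_sq (pow_nonneg yy_pos.le _)]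

theorem sq4 (k : ℕ) : √(8 ^ k) = √2 ^ (3 * k) := by
  have h : (8 : ℝ) ^ k = (√2 ^ (3 * k)) ^ 2 := by
    rw [← pow_mul, mul_comm (3 * k) 2, pow_mul, yy_sq, pow_mul]
    norm_num
  rw [h, Real.sqrt_sq (pow_nonneg yy_pos.le _)]

theorem xy (m : ℕ) : xx ^ m * √2 ^ m = 1 := by
  rw [← mul_pow]
  unfold xx
  rw [inv_mul_cancel₀ yy_pos.ne', one_pow]

theorem geo_le (x : ℝ) (hx : 0 ≤ x) (hx1 : x ≤ 3 / 4) (S : Finset ℕ) :
    ∑ j ∈ S, x ^ j ≤ 4 := by
  have hs : Summable fun j : ℕ => x ^ j := summable_geometric_of_lt_one hx (by linarith)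
  refine (hs.sum_le_tsum S fun j _ => pow_nonneg hx j).trans ?_
  rw [tsum_geometric_of_lt_one hx (by linarith)]
  rw [inv_le_comm₀ (by linarith) (by norm_num)]
  linarith

theorem term1 (Λ : ℝ) {k : ℕ} (hk : 3 ≤ k) :
    √(1 / 8 ^ k) * √(rr k) * (16 ^ k * (2 * (Λ / 8 ^ (k - 3)))) = 1024 * Λ * (1 / 2) ^ k := by
  obtain ⟨m, rfl⟩ := Nat.exists_eq_add_of_le' hk
  rw [sq1, sq2, ← pow_add, Nat.add_sub_cancel]
  have h1 : xx ^ (3 * (m + 3) + (m + 3)) = (1 / 4) ^ (m + 3) := by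
    rw [show 3 * (m + 3) + (m + 3) = 2 * (2 * (m + 3)) by ring, pow_mul, xx_sq, pow_mul]
    norm_num
  rw [h1]
  have h2 : (16 : ℝ) ^ (m + 3) = 8 ^ m * 2 ^ m * 4096 := by
    rw [pow_add, ← mul_pow]
    norm_num
  have h3 : ((1 : ℝ) / 4) ^ (m + 3) * (2 ^ m) = (1 / 2) ^ m / 64 := by
    rw [pow_add, mul_right_comm, ← mul_pow]
    norm_num
    ring
  rw [h2]
  have h8 : (8 : ℝ) ^ m ≠ 0 := by positivity
  calc (1 / 4 : ℝ) ^ (m + 3) * (8 ^ m * 2 ^ m * 4096 * (2 * (Λ / 8 ^ m)))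
      = ((1 / 4 : ℝ) ^ (m + 3) * 2 ^ m) * (8192 * Λ) * (8 ^ m / 8 ^ m) := by ring
    _ = 1024 * Λ * (1 / 2) ^ (m + 3) := by
      rw [h3, div_self h8, pow_add]
      ring

theorem term2 (Λ : ℝ) {j k : ℕ} (hj : 1 ≤ j) :
    √(1 / 8 ^ k) * √(rr k) * (√(32 ^ j) * √(8 ^ k) * (2 * (Λ / 8 ^ (j - 1)))) =
      16 * Λ * (xx ^ k * xx ^ j) := by
  obtain ⟨m, rfl⟩ := Nat.exists_eq_add_of_le' hj
  rw [sq1, sq2, sq3, sq4, Nat.add_sub_cancel]
  have h8 : (8 : ℝ) ^ m ≠ 0 := by positivity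
  have h1 : xx ^ (3 * k) * √2 ^ (3 * k) = 1 := xy _
  have h2 : √2 ^ (5 * (m + 1)) = 8 ^ m * 8 * xx ^ (m + 1) := by
    have e1 : (8 : ℝ) ^ m * 8 = √2 ^ (6 * (m + 1)) := by
      rw [← pow_succ, show 6 * (m + 1) = 2 * (3 * (m + 1)) by ring, pow_mul, yy_sq, pow_mul]
      norm_num
    rw [e1, show 6 * (m + 1) = 5 * (m + 1) + (m + 1) by ring, pow_add, mul_assoc, mul_comm
      (√2 ^ (m + 1)), xy, mul_one]
  rw [h2]
  calc xx ^ (3 * k) * xx ^ k * (8 ^ m * 8 * xx ^ (m + 1) * √2 ^ (3 * k) * (2 * (Λ / 8 ^ m)))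
      = (xx ^ (3 * k) * √2 ^ (3 * k)) * (16 * Λ * (xx ^ k * xx ^ (m + 1))) * (8 ^ m / 8 ^ m) := by
        ring
    _ = 16 * Λ * (xx ^ k * xx ^ (m + 1)) := by rw [h1, div_self h8]; ring

theorem t_TSUM : S_TSUM := by
  refine ⟨4352, by norm_num, ?_⟩
  intro Λ s n b hΛ hb0 hb
  have hbi : ∀ i ∈ Finset.Icc 2 n, IntegrableOn (b i) (II s i) ∧
      ∫ t in II s i, b i t ≤ Λ / 8 ^ i := hb
  -- the functions on the small intervals
  set T : ℕ → ℝ → ℝ := fun k t =>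
      √(1 / 8 ^ k) * √(rr k) * (16 ^ k * (4 ^ k * (Λ / 8 ^ (k - 3)) + b (k - 3) t)
        + ∑ j ∈ Finset.Ico 3 (k - 2), √(32 ^ j) * √(8 ^ k) *
          (4 ^ k * (Λ / 8 ^ (j - 1)) + b (j - 1) t)) with hT
  have hk : ∀ k ∈ Finset.Icc 5 n, IntegrableOn (T k) (II s k) ∧
      ∫ t in II s k, T k t ≤ Λ * (1024 * (1 / 2) ^ k + 64 * xx ^ k) := by
    intro k hk
    rw [Finset.mem_Icc] at hk
    have p1 := piece (Λ := Λ) (s := s) (b := b (k - 3)) (i := k - 3) (k := k) (by omega)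
      (hb0 _ (Finset.mem_Icc.2 ⟨by omega, by omega⟩))
      (hbi _ (Finset.mem_Icc.2 ⟨by omega, by omega⟩)).1
      (hbi _ (Finset.mem_Icc.2 ⟨by omega, by omega⟩)).2
    have p2 : ∀ j ∈ Finset.Ico 3 (k - 2),
        IntegrableOn (fun t => 4 ^ k * (Λ / 8 ^ (j - 1)) + b (j - 1) t) (II s k) ∧
        ∫ t in II s k, (4 ^ k * (Λ / 8 ^ (j - 1)) + b (j - 1) t) ≤ 2 * (Λ / 8 ^ (j - 1)) := by
      intro j hj
      rw [Finset.mem_Ico] at hj
      exact piece (by omega) (hb0 _ (Finset.mem_Icc.2 ⟨by omega, by omega⟩))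
        (hbi _ (Finset.mem_Icc.2 ⟨by omega, by omega⟩)).1
        (hbi _ (Finset.mem_Icc.2 ⟨by omega, by omega⟩)).2
    have i1 : Integrable (fun t => (16 : ℝ) ^ k * (4 ^ k * (Λ / 8 ^ (k - 3)) + b (k - 3) t))
        (volume.restrict (II s k)) := Integrable.const_mul p1.1 _
    have i2 : ∀ j ∈ Finset.Ico 3 (k - 2), Integrable (fun t => √(32 ^ j) * √(8 ^ k) *
        (4 ^ k * (Λ / 8 ^ (j - 1)) + b (j - 1) t)) (volume.restrict (II s k)) :=
      fun j hj => Integrable.const_mul (p2 j hj).1 _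
    have i3 : Integrable (fun t => ∑ j ∈ Finset.Ico 3 (k - 2), √(32 ^ j) * √(8 ^ k) *
        (4 ^ k * (Λ / 8 ^ (j - 1)) + b (j - 1) t)) (volume.restrict (II s k)) :=
      integrable_finsetSum _ i2
    refine ⟨(i1.add i3).const_mul _, ?_⟩
    have e : ∫ t in II s k, T k t = √(1 / 8 ^ k) * √(rr k) *
        (16 ^ k * (∫ t in II s k, (4 ^ k * (Λ / 8 ^ (k - 3)) + b (k - 3) t))
        + ∑ j ∈ Finset.Ico 3 (k - 2), √(32 ^ j) * √(8 ^ k) *
          ∫ t in II s k, (4 ^ k * (Λ / 8 ^ (j - 1)) + b (j - 1) t)) := by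
      rw [hT]
      show ∫ t in II s k, √(1 / 8 ^ k) * √(rr k) * _ = _
      rw [integral_const_mul, integral_add i1 i3, integral_const_mul, integral_finsetSum _ i2]
      congr 2
      exact Finset.sum_congr rfl fun j _ => integral_const_mul _ _
    rw [e]
    have hP : 0 ≤ √(1 / 8 ^ k) * √(rr k) := by positivity
    have b1 : √(1 / 8 ^ k) * √(rr k) *
        (16 ^ k * (∫ t in II s k, (4 ^ k * (Λ / 8 ^ (k - 3)) + b (k - 3) t))
        + ∑ j ∈ Finset.Ico 3 (k - 2), √(32 ^ j) * √(8 ^ k) *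
          ∫ t in II s k, (4 ^ k * (Λ / 8 ^ (j - 1)) + b (j - 1) t)) ≤
        √(1 / 8 ^ k) * √(rr k) * (16 ^ k * (2 * (Λ / 8 ^ (k - 3)))
        + ∑ j ∈ Finset.Ico 3 (k - 2), √(32 ^ j) * √(8 ^ k) * (2 * (Λ / 8 ^ (j - 1)))) := by
      refine mul_le_mul_of_nonneg_left (add_le_add ?_ ?_) hP
      · exact mul_le_mul_of_nonneg_left p1.2 (by positivity)
      · exact Finset.sum_le_sum fun j hj =>
          mul_le_mul_of_nonneg_left (p2 j hj).2 (by positivity)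
    refine b1.trans ?_
    rw [mul_add, Finset.mul_sum, term1 Λ (by omega)]
    have b2 : ∑ j ∈ Finset.Ico 3 (k - 2), √(1 / 8 ^ k) * √(rr k) *
        (√(32 ^ j) * √(8 ^ k) * (2 * (Λ / 8 ^ (j - 1)))) =
        16 * Λ * xx ^ k * ∑ j ∈ Finset.Ico 3 (k - 2), xx ^ j := by
      rw [Finset.mul_sum]
      refine Finset.sum_congr rfl fun j hj => ?_
      rw [Finset.mem_Ico] at hj
      rw [term2 Λ (by omega)]
      ring
    rw [b2]
    have b3 := geo_le xx xx_pos.le xx_le (Finset.Ico 3 (k - 2))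
    have b4 : 0 ≤ 16 * Λ * xx ^ k := by
      have := pow_nonneg xx_pos.le k
      positivity
    have b5 := mul_le_mul_of_nonneg_left b3 b4
    linarith
  -- from the small intervals to the big one
  have hF : ∀ k ∈ Finset.Icc 5 n,
      IntegrableOn (fun t => if s - rr k ^ 2 < t then T k t else 0) (II s 2) ∧
      ∫ t in II s 2, (if s - rr k ^ 2 < t then T k t else 0) = ∫ t in II s k, T k t := by
    intro k hk'
    have hk2 : 2 ≤ k := by have := (Finset.mem_Icc.1 hk').1; omega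
    have e1 : (fun t => if s - rr k ^ 2 < t then T k t else 0) =
        (Ioi (s - rr k ^ 2)).indicator (T k) := by
      funext t
      rw [indicator_apply]
      rfl
    have e2 : Ioi (s - rr k ^ 2) ∩ II s 2 = II s k := by
      ext t
      constructor
      · rintro ⟨h1, h2⟩
        exact ⟨h1, h2.2⟩
      · intro h
        exact ⟨h.1, II_sub s hk2 h⟩
    rw [e1]
    constructor
    · show Integrable _ (volume.restrict (II s 2))
      rw [integrable_indicator_iff measurableSet_Ioi]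
      show Integrable _ ((volume.restrict (II s 2)).restrict _)
      rw [Measure.restrict_restrict measurableSet_Ioi, e2]
      exact (hk k hk').1
    · rw [integral_indicator measurableSet_Ioi, Measure.restrict_restrict measurableSet_Ioi, e2]
  constructor
  · exact integrable_finsetSum _ fun k hk' => (hF k hk').1
  · show ∫ t in II s 2, (∑ k ∈ Finset.Icc 5 n, if s - rr k ^ 2 < t then T k t else 0) ≤ _
    rw [integral_finsetSum _ fun k hk' => (hF k hk').1]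
    calc ∑ k ∈ Finset.Icc 5 n, ∫ t in II s 2, (if s - rr k ^ 2 < t then T k t else 0)
        ≤ ∑ k ∈ Finset.Icc 5 n, Λ * (1024 * (1 / 2) ^ k + 64 * xx ^ k) :=
          Finset.sum_le_sum fun k hk' => by rw [(hF k hk').2]; exact (hk k hk').2
      _ = Λ * (1024 * ∑ k ∈ Finset.Icc 5 n, (1 / 2 : ℝ) ^ k + 64 * ∑ k ∈ Finset.Icc 5 n, xx ^ k) := by
          rw [← Finset.mul_sum, Finset.sum_add_distrib, Finset.mul_sum, Finset.mul_sum]
      _ ≤ Λ * (1024 * 4 + 64 * 4) := by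
          refine mul_le_mul_of_nonneg_left ?_ hΛ
          have g1 := geo_le (1 / 2) (by norm_num) (by norm_num) (Finset.Icc 5 n)
          have g2 := geo_le xx xx_pos.le xx_le (Finset.Icc 5 n)
          linarith
      _ = 4352 * Λ := by ring

end Pool.Agent.W346.MD
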